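import Pool.Agent.Helper74.CP.Gen
import Pool.Agent.Helper60.CP.Stm

/-! Part C: the equations at a minimum of the action defect. -/

set_option autoImplicit false

open Real Set MeasureTheory Filter Topology
open scoped ContDiff

namespace Pool.Agent.Helper74.CP.C

open Pool.Agent.H206R2.Rot2 (Veff well actW)
open Pool.Agent.H206R2.Rot2.TF (deriv_neg deriv_pos veff_add1 veff_add2 isOpen_Q)
open Pool.Agent.H206R2.Rot2.TG (left_bound right_bound veff_sub1 veff_sub2 weight_int)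
open Pool.Agent.Helper60.CP (IsProfileC KK Reg Dc)
open Pool.Agent.Helper74.CP

section
variable {L : ℝ} {f h : ℝ → ℝ} (hf : IsProfileC L f h)
include hf

lemma f_ne {r : ℝ} (hr : r ∈ Ioo 0 L) : f r ≠ 0 := (hf.f_pos r hr.1 hr.2).ne'

lemma h_ne {r : ℝ} (hr : r ∈ Ioo 0 L) : h r ≠ 0 := (hf.h_pos r hr.1 hr.2.le).ne'

lemma f_zero : f 0 = 0 := by
  have := hf.f_odd 0
  simp at this
  linarith

lemma f_L : f L = 0 := by
  have := hf.f_odd_L 0
  simp at this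
  linarith

lemma veff_contDiffOn (c₁ c₂ : ℝ) : ContDiffOn ℝ ∞ (Veff f h c₁ c₂) (Ioo 0 L) := by
  unfold Veff
  exact ((contDiffOn_const.div hf.smooth_f.contDiffOn fun r hr => f_ne hf hr).pow 2).add
    ((contDiffOn_const.div hf.smooth_h.contDiffOn fun r hr => h_ne hf hr).pow 2)

lemma veff_reg (c₁ c₂ : ℝ) {p : ℝ}
    (hp : p ∈ Ioo 0 L) : (∀ᶠ x in 𝓝 p, DifferentiableAt ℝ (Veff f h c₁ c₂) x) ∧
      DifferentiableAt ℝ (deriv (Veff f h c₁ c₂)) p := by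
  have h1 := veff_contDiffOn hf c₁ c₂
  rw [contDiffOn_infty_iff_deriv_of_isOpen isOpen_Ioo] at h1
  constructor
  · filter_upwards [isOpen_Ioo.mem_nhds hp] with x hx
    exact h1.1.differentiableAt (isOpen_Ioo.mem_nhds hx)
  · exact (h1.2.differentiableOn (by simp)).differentiableAt (isOpen_Ioo.mem_nhds hp)

lemma gf_cont : ContinuousOn (fun r => 1 / f r ^ 2) (Ioo 0 L) :=
  continuousOn_const.div (hf.smooth_f.continuous.continuousOn.pow 2)
    fun r hr => pow_ne_zero 2 (f_ne hf hr)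

lemma gh_cont : ContinuousOn (fun r => 1 / h r ^ 2) (Ioo 0 L) :=
  continuousOn_const.div (hf.smooth_h.continuous.continuousOn.pow 2)
    fun r hr => pow_ne_zero 2 (h_ne hf hr)

lemma gf_pos : ∀ r ∈ Ioo 0 L, 0 < 1 / f r ^ 2 :=
  fun _ hr => by have := f_ne hf hr; positivity

lemma gh_pos : ∀ r ∈ Ioo 0 L, 0 < 1 / h r ^ 2 :=
  fun _ hr => by have := h_ne hf hr; positivity

theorem well_spec {c₁ c₂ : ℝ} (h1 : 0 < c₁)
    {s : ℝ} (hs0 : 0 < s) (hsL : s < L) (hs : Veff f h c₁ c₂ s < 1) :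
    ∃ p q, 0 < p ∧ p < s ∧ s < q ∧ q < L ∧ Veff f h c₁ c₂ p = 1 ∧ Veff f h c₁ c₂ q = 1 ∧
      well L (Veff f h c₁ c₂) s = Ioo p q ∧ ∀ x ∈ Ioo p q, Veff f h c₁ c₂ x < 1 := by
  have key : ∀ x ∈ Ioo 0 L, f x < c₁ → 1 ≤ Veff f h c₁ c₂ x := by
    intro x hx hfx
    have hfu : 0 < f x := hf.f_pos x hx.1 hx.2
    have : 1 ≤ c₁ / f x := by rw [le_div_iff₀ hfu]; linarith
    unfold Veff
    nlinarith [sq_nonneg (c₂ / h x)]
  obtain ⟨u, hu0, hus, hu1⟩ : ∃ u, 0 < u ∧ u < s ∧ 1 ≤ Veff f h c₁ c₂ u := by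
    have e1 : Tendsto f (𝓝[>] 0) (𝓝 (f 0)) := hf.smooth_f.continuous.continuousAt.mono_left
      nhdsWithin_le_nhds
    rw [f_zero hf] at e1
    have e2 : ∀ᶠ x in 𝓝[>] (0 : ℝ), f x < c₁ := e1.eventually_lt_const h1
    have e3 : ∀ᶠ x in 𝓝[>] (0 : ℝ), x ∈ Ioo 0 s := Ioo_mem_nhdsGT hs0
    obtain ⟨u, hu, hu'⟩ := (e2.and e3).exists
    exact ⟨u, hu'.1, hu'.2, key u ⟨hu'.1, hu'.2.trans hsL⟩ hu⟩
  obtain ⟨v, hsv, hvL, hv1⟩ : ∃ v, s < v ∧ v < L ∧ 1 ≤ Veff f h c₁ c₂ v := by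
    have e1 : Tendsto f (𝓝[<] L) (𝓝 (f L)) := hf.smooth_f.continuous.continuousAt.mono_left
      nhdsWithin_le_nhds
    rw [f_L hf] at e1
    have e2 : ∀ᶠ x in 𝓝[<] L, f x < c₁ := e1.eventually_lt_const h1
    have e3 : ∀ᶠ x in 𝓝[<] L, x ∈ Ioo s L := Ioo_mem_nhdsLT hsL
    obtain ⟨v, hv, hv'⟩ := (e2.and e3).exists
    exact ⟨v, hv'.1, hv'.2, key v ⟨hs0.trans hv'.1, hv'.2⟩ hv⟩
  exact well_abs (veff_contDiffOn hf c₁ c₂).continuousOn hu0 hus hsv hvL hu1 hv1 hs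

end

lemma sqrt_step {K a x : ℝ} (hK : 0 < K) (hx : x = K ^ 2 + 2 * a) (h0 : 0 ≤ K + a / K) :
    √x ≤ K + a / K := by
  rw [Real.sqrt_le_left h0, hx]
  have h1 : (K + a / K) ^ 2 = K ^ 2 + 2 * a + (a / K) ^ 2 := by field_simp; ring
  rw [h1]
  nlinarith [sq_nonneg (a / K)]

lemma KK_pos {c : ℝ × ℝ} (h1 : 0 < c.1) : 0 < KK c := by
  unfold KK
  positivity

lemma KK_sq (c : ℝ × ℝ) : KK c ^ 2 = c.1 ^ 2 + c.2 ^ 2 := Real.sq_sqrt (by positivity)

lemma fst_le_KK {c : ℝ × ℝ} : c.1 ≤ KK c := by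
  unfold KK
  exact Real.le_sqrt_of_sq_le (by nlinarith [sq_nonneg c.2])

lemma snd_le_KK {c : ℝ × ℝ} : c.2 ≤ KK c := by
  unfold KK
  exact Real.le_sqrt_of_sq_le (by nlinarith [sq_nonneg c.1])

lemma KK_cont : Continuous KK := by
  unfold KK
  fun_prop

lemma isOpen_Reg (R : ℝ) : IsOpen (Reg R) := by
  have h1 : IsOpen {c : ℝ × ℝ | 0 < c.1} := isOpen_lt continuous_const continuous_fst
  have h2 : IsOpen {c : ℝ × ℝ | 0 < c.2} := isOpen_lt continuous_const continuous_snd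
  have h3 : IsOpen {c : ℝ × ℝ | c.1 + KK c < R} :=
    isOpen_lt (continuous_fst.add KK_cont) continuous_const
  exact h1.inter (h2.inter h3)

/-- the integrability of `1/√(1-V)` -/
lemma inv_int {L : ℝ} {V G : ℝ → ℝ} (hV : ContinuousOn V (Ioo 0 L)) (hG : ContinuousOn G (Ioo 0 L))
    (hG0 : ∀ x ∈ Ioo 0 L, 0 < G x) {p q : ℝ} (hp : 0 < p) (hpq : p < q) (hq : q < L)
    (hin : ∀ x ∈ Ioo p q, V x < 1) {k : ℝ} (hk : 0 < k)
    (hI : IntegrableOn (fun r => k * G r / √(1 - V r)) (Ioo p q)) :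
    IntegrableOn (fun r => 1 / √(1 - V r)) (Ioo p q) := by
  have hsub2 : Icc p q ⊆ Ioo 0 L := fun r hr => ⟨by linarith [hr.1], by linarith [hr.2]⟩
  have hsub3 : Ioo p q ⊆ Ioo 0 L := Ioo_subset_Icc_self.trans hsub2
  obtain ⟨x1, hx1, hmin1⟩ := isCompact_Icc.exists_isMinOn (nonempty_Icc.mpr hpq.le)
    (hG.mono hsub2)
  have hm : 0 < G x1 := hG0 x1 (hsub2 hx1)
  set m := G x1 with hmdef
  have hI' : IntegrableOn (fun r => 1 / (k * m) *
    (k * G r / √(1 - V r))) (Ioo p q) := hI.const_mul _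
  refine hI'.mono' ?_ ?_
  · apply ContinuousOn.aestronglyMeasurable _ measurableSet_Ioo
    refine continuousOn_const.div (continuousOn_const.sub (hV.mono hsub3)).sqrt ?_
    intro r hr
    exact (Real.sqrt_pos.mpr (by linarith [hin r hr])).ne'
  · refine (ae_restrict_iff' measurableSet_Ioo).mpr (ae_of_all _ fun r hr => ?_)
    have hs : 0 < √(1 - V r) := Real.sqrt_pos.mpr (by linarith [hin r hr])
    rw [Real.norm_eq_abs, abs_of_pos (by positivity)]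
    have h1 : m ≤ G r := hmin1 (Ioo_subset_Icc_self hr)
    have h2 : 1 / (k * m) * (k * G r / √(1 - V r)) = (G r / m) * (1 / √(1 - V r)) := by
      field_simp
    rw [h2]
    have h3 : 1 ≤ G r / m := by rw [le_div_iff₀ hm, one_mul]; exact h1
    exact le_mul_of_one_le_left (by positivity) h3

lemma le_lim {X A B : ℝ} (hB : 0 < B) (h : ∀ e : ℝ, 0 < e → X ≤ A + B * e) : X ≤ A := by
  refine le_of_forall_pos_le_add fun ε hε => ?_
  have := h (ε / B) (div_pos hε hB)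
  rwa [mul_div_cancel₀ _ hB.ne'] at this

lemma ge_lim {X A B k : ℝ} (hB : 0 < B) (hk : 0 < k) (h : ∀ e : ℝ, 0 < e → e < k → A - B * e ≤ X) :
    A ≤ X := by
  refine le_of_forall_pos_le_add fun ε hε => ?_
  have h1 : 0 < min (ε / B) (k / 2) := lt_min (div_pos hε hB) (by linarith)
  have h2 := h _ h1 (lt_of_le_of_lt (min_le_right _ _) (by linarith))
  have h3 : B * min (ε / B) (k / 2) ≤ B * (ε / B) :=
    mul_le_mul_of_nonneg_left (min_le_left _ _) hB.le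
  rw [mul_div_cancel₀ _ hB.ne'] at h3
  linarith

/-- the estimate from above -/
lemma upper {L R : ℝ} {f h : ℝ → ℝ} {s : ℝ × ℝ → ℝ} {c : ℝ × ℝ} {G : ℝ → ℝ}
    (hVc : ContinuousOn (Veff f h c.1 c.2) (Ioo 0 L)) (hG : ContinuousOn G (Ioo 0 L))
    (hG0 : ∀ x ∈ Ioo 0 L, 0 < G x) (hsc : ContinuousAt s c) (hc : c ∈ Reg R)
    (hmin : ∀ c' ∈ Reg R, Dc L R f h s c ≤ Dc L R f h s c')
    {p q : ℝ} (hp : 0 < p) (hps : p < s c) (hsq : s c < q) (hq : q < L)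
    (hVp : Veff f h c.1 c.2 p = 1) (hVq : Veff f h c.1 c.2 q = 1)
    (hw : well L (Veff f h c.1 c.2) (s c) = Ioo p q)
    (hin : ∀ x ∈ Ioo p q, Veff f h c.1 c.2 x < 1)
    {k : ℝ} (hk : 0 < k) (γ : ℝ → ℝ × ℝ) (hγ : Continuous γ) (hγ0 : γ 0 = c)
    (hVγ : ∀ ε, Veff f h (γ ε).1 (γ ε).2 =
      fun r => Veff f h c.1 c.2 r + ((k + ε) ^ 2 - k ^ 2) * G r)
    {A B : ℝ} (hA : 0 < A) (hB : 0 < B)
    (hcmp : ∀ ε e : ℝ, 0 < ε → 0 < e → ε < e →
      π * ((γ ε).1 + KK (γ ε) - (c.1 + KK c)) ≤ (A + B * e) * ε) :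
    IntegrableOn (fun r => k * G r / √(1 - Veff f h c.1 c.2 r)) (Ioo p q) ∧
      2 * ∫ r in Ioo p q, k * G r / √(1 - Veff f h c.1 c.2 r) ≤ A := by
  have hγt : Tendsto γ (𝓝[>] 0) (𝓝 c) := by
    have h2 := hγ.tendsto 0
    rw [hγ0] at h2
    exact tendsto_nhdsWithin_of_tendsto_nhds h2
  have main : ∀ e : ℝ, 0 < e →
      IntegrableOn (fun r => k * G r / √(1 - Veff f h c.1 c.2 r)) (Ioo p q) ∧
        2 * ∫ r in Ioo p q, k * G r / √(1 - Veff f h c.1 c.2 r) ≤ A + B * e := by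
    intro e he
    refine abs_F_d hVc hG hG0 hp hps hsq hq hVp hVq hin hk (by positivity)
      (σ := fun ε => s (γ ε)) (hsc.tendsto.comp hγt) ?_
    have e5 : ∀ᶠ ε in 𝓝[>] (0 : ℝ), ε ∈ Ioo (0 : ℝ) e := Ioo_mem_nhdsGT he
    filter_upwards [hγt ((isOpen_Reg R).mem_nhds hc), e5] with ε hε h5
    have h2 := hmin (γ ε) hε
    have h3 := hcmp ε e h5.1 he h5.2
    simp only [Dc, actW] at h2
    rw [hw, hVγ] at h2
    linarith
  refine ⟨(main 1 one_pos).1, le_lim hB fun e he => (main e he).2⟩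

/-- the estimate from below -/
lemma lower {L R : ℝ} {f h : ℝ → ℝ} {s : ℝ × ℝ → ℝ} {c : ℝ × ℝ} {G : ℝ → ℝ}
    (hVc : ContinuousOn (Veff f h c.1 c.2) (Ioo 0 L)) (hG : ContinuousOn G (Ioo 0 L))
    (hG0 : ∀ x ∈ Ioo 0 L, 0 < G x) (hsc : ContinuousAt s c) (hc : c ∈ Reg R)
    (hmin : ∀ c' ∈ Reg R, Dc L R f h s c ≤ Dc L R f h s c')
    {p q : ℝ} (hp : 0 < p) (hps : p < s c) (hsq : s c < q) (hq : q < L)
    (hVp : Veff f h c.1 c.2 p = 1) (hVq : Veff f h c.1 c.2 q = 1)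
    (hw : well L (Veff f h c.1 c.2) (s c) = Ioo p q)
    (hin : ∀ x ∈ Ioo p q, Veff f h c.1 c.2 x < 1) {a b : ℝ}
    (ha : 0 < a) (hb : 0 < b) (hpd : ∀ᶠ r in 𝓝[<] p, 1 + a * (p - r) ≤ Veff f h c.1 c.2 r)
    (hqd : ∀ᶠ r in 𝓝[>] q, 1 + b * (r - q) ≤ Veff f h c.1 c.2 r)
    {k : ℝ} (hk : 0 < k) (γ : ℝ → ℝ × ℝ) (hγ : Continuous γ) (hγ0 : γ 0 = c)
    (hVγ : ∀ ε, Veff f h (γ ε).1 (γ ε).2 =
      fun r => Veff f h c.1 c.2 r - (k ^ 2 - (k - ε) ^ 2) * G r)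
    {A B : ℝ} (hB : 0 < B) (hAB : ∀ e, 0 < e → e < k → 0 < A - B * e)
    (hcmp : ∀ ε e : ℝ, 0 < ε → 0 < e → e < k → ε < e →
      (A - B * e) * ε ≤ π * ((c.1 + KK c) - ((γ ε).1 + KK (γ ε))))
    (hint : IntegrableOn (fun r => k * G r / √(1 - Veff f h c.1 c.2 r)) (Ioo p q)) :
    A ≤ 2 * ∫ r in Ioo p q, k * G r / √(1 - Veff f h c.1 c.2 r) := by
  have hγt : Tendsto γ (𝓝[>] 0) (𝓝 c) := by
    have h2 := hγ.tendsto 0
    rw [hγ0] at h2
    exact tendsto_nhdsWithin_of_tendsto_nhds h2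
  refine ge_lim hB hk fun e he hek => ?_
  refine abs_ge_d hVc hG hG0 hp hps hsq hq hVp hVq hin ha hb hpd hqd hk (hAB e he hek)
    (σ := fun ε => s (γ ε)) (hsc.tendsto.comp hγt) ?_ hint
  have e5 : ∀ᶠ ε in 𝓝[>] (0 : ℝ), ε ∈ Ioo (0 : ℝ) e := Ioo_mem_nhdsGT he
  filter_upwards [hγt ((isOpen_Reg R).mem_nhds hc), e5] with ε hε h5
  have h2 := hmin (γ ε) hε
  have h3 := hcmp ε e h5.1 he hek h5.2
  simp only [Dc, actW] at h2
  rw [hw, hVγ] at h2
  linarith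

theorem t_C : Pool.Agent.Helper60.CP.S_C := by
  intro L R f h s c hf hR hs hsI hs1 hc hmin
  obtain ⟨hc1, hc2, hc3⟩ := id hc
  obtain ⟨hs0, hsL⟩ := hsI c hc1 hc2
  obtain ⟨p, q, hp, hps, hsq, hq, hVp, hVq, hw, hin⟩ := well_spec hf hc1 hs0 hsL (hs1 c hc)
  have hpq : p < q := hps.trans hsq
  have hsc : ContinuousAt s c := hs.continuousAt (isOpen_Q.mem_nhds ⟨hc1, hc2⟩)
  have hVc : ContinuousOn (Veff f h c.1 c.2) (Ioo 0 L) := (veff_contDiffOn hf c.1 c.2).continuousOn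
  have hK : 0 < KK c := KK_pos hc1
  have hKsq := KK_sq c
  have hπ := Real.pi_pos
  have hsub2 : Icc p q ⊆ Ioo 0 L := fun r hr => ⟨by linarith [hr.1], by linarith [hr.2]⟩
  have k1 := fst_le_KK (c := c)
  have k2 := snd_le_KK (c := c)
  -- comparison of KK
  have up1 : ∀ ε : ℝ, 0 < ε → KK (c.1 + ε, c.2) ≤ KK c + ε * (c.1 + ε / 2) / KK c := by
    intro ε hε
    refine sqrt_step hK ?_ (by positivity)
    show (c.1 + ε) ^ 2 + c.2 ^ 2 = _
    rw [hKsq]; ring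
  have up2 : ∀ ε : ℝ, 0 < ε → KK (c.1, c.2 + ε) ≤ KK c + ε * (c.2 + ε / 2) / KK c := by
    intro ε hε
    refine sqrt_step hK ?_ (by positivity)
    show c.1 ^ 2 + (c.2 + ε) ^ 2 = _
    rw [hKsq]; ring
  have lo1 : ∀ ε : ℝ, 0 < ε → ε < c.1 → KK (c.1 - ε, c.2) ≤ KK c - ε * (c.1 - ε / 2) / KK c := by
    intro ε hε hε1
    have := sqrt_step (K := KK c) (a := -(ε * (c.1 - ε / 2)))
      (x := (c.1 - ε) ^ 2 + c.2 ^ 2) hK (by rw [hKsq]; ring) (by
        rw [neg_div, ← sub_eq_add_neg, sub_nonneg, div_le_iff₀ hK]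
        nlinarith)
    rw [neg_div, ← sub_eq_add_neg] at this
    exact this
  have lo2 : ∀ ε : ℝ, 0 < ε → ε < c.2 → KK (c.1, c.2 - ε) ≤ KK c - ε * (c.2 - ε / 2) / KK c := by
    intro ε hε hε1
    have := sqrt_step (K := KK c) (a := -(ε * (c.2 - ε / 2)))
      (x := c.1 ^ 2 + (c.2 - ε) ^ 2) hK (by rw [hKsq]; ring) (by
        rw [neg_div, ← sub_eq_add_neg, sub_nonneg, div_le_iff₀ hK]
        nlinarith)
    rw [neg_div, ← sub_eq_add_neg] at this
    exact this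
  -- upper estimates
  have F1 := upper (R := R) hVc (gf_cont hf) (gf_pos hf) hsc hc hmin hp hps hsq hq hVp hVq hw hin hc1
    (fun ε => (c.1 + ε, c.2)) (by fun_prop) (by simp)
    (fun ε => veff_add1 f h c.1 c.2 ε) (A := π * (1 + c.1 / KK c)) (B := π / KK c)
    (by positivity) (by positivity) (by
      intro ε e hε he hεe
      have h1 := up1 ε hε
      have h2 : ε * (c.1 + ε / 2) / KK c ≤ ε * (c.1 + e) / KK c := by
        have : ε * (c.1 + ε / 2) ≤ ε * (c.1 + e) := by nlinarith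
        gcongr
      have h3 : (π * (1 + c.1 / KK c) + π / KK c * e) * ε = π * (ε + ε * (c.1 + e) / KK c) := by
        field_simp
        ring
      rw [h3]
      refine mul_le_mul_of_nonneg_left ?_ hπ.le
      show c.1 + ε + KK (c.1 + ε, c.2) - (c.1 + KK c) ≤ _
      linarith)
  have F2 := upper (R := R) hVc (gh_cont hf) (gh_pos hf) hsc hc hmin hp hps hsq hq hVp hVq hw hin hc2
    (fun ε => (c.1, c.2 + ε)) (by fun_prop) (by simp)
    (fun ε => veff_add2 f h c.1 c.2 ε) (A := π * (c.2 / KK c)) (B := π / KK c)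
    (by positivity) (by positivity) (by
      intro ε e hε he hεe
      have h1 := up2 ε hε
      have h2 : ε * (c.2 + ε / 2) / KK c ≤ ε * (c.2 + e) / KK c := by
        have : ε * (c.2 + ε / 2) ≤ ε * (c.2 + e) := by nlinarith
        gcongr
      have h3 : (π * (c.2 / KK c) + π / KK c * e) * ε = π * (ε * (c.2 + e) / KK c) := by
        field_simp
      rw [h3]
      refine mul_le_mul_of_nonneg_left ?_ hπ.le
      show c.1 + KK (c.1, c.2 + ε) - (c.1 + KK c) ≤ _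
      linarith)
  have hint : IntegrableOn (fun r => 1 / √(1 - Veff f h c.1 c.2 r)) (Ioo p q) :=
    inv_int hVc (gf_cont hf) (gf_pos hf) hp hpq hq hin hc1 F1.1
  have hdp : deriv (Veff f h c.1 c.2) p < 0 := by
    obtain ⟨r1, r2⟩ := veff_reg hf c.1 c.2 (hsub2 (left_mem_Icc.mpr hpq.le))
    exact deriv_neg hpq r1 r2 hVp hin hint
  have hdq : 0 < deriv (Veff f h c.1 c.2) q := by
    obtain ⟨r1, r2⟩ := veff_reg hf c.1 c.2 (hsub2 (right_mem_Icc.mpr hpq.le))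
    exact deriv_pos hpq r1 r2 hVq hin hint
  have b1 := left_bound (veff_reg hf c.1 c.2 (hsub2 (left_mem_Icc.mpr hpq.le))).1.self_of_nhds hdp hVp
  have b2 := right_bound (veff_reg hf c.1 c.2 (hsub2 (right_mem_Icc.mpr hpq.le))).1.self_of_nhds
    hdq hVq
  have G1 := lower (R := R) hVc (gf_cont hf) (gf_pos hf) hsc hc hmin hp hps hsq hq hVp hVq hw hin
    (by linarith : 0 < -deriv (Veff f h c.1 c.2) p / 2)
    (by linarith : 0 < deriv (Veff f h c.1 c.2) q / 2) b1 b2 hc1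
    (fun ε => (c.1 - ε, c.2)) (by fun_prop) (by simp)
    (fun ε => veff_sub1 f h c.1 c.2 ε) (A := π * (1 + c.1 / KK c)) (B := π / KK c)
    (by positivity) (by
      intro e he hek
      have h3 : π * (1 + c.1 / KK c) - π / KK c * e = π * (1 + (c.1 - e) / KK c) := by
        field_simp
        ring
      rw [h3]
      have : 0 < c.1 - e := by linarith
      positivity) (by
      intro ε e hε he hek hεe
      have h1 := lo1 ε hε (hεe.trans hek)
      have h2 : ε * (c.1 - e) / KK c ≤ ε * (c.1 - ε / 2) / KK c := by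
        have : ε * (c.1 - e) ≤ ε * (c.1 - ε / 2) := by nlinarith
        gcongr
      have h3 : (π * (1 + c.1 / KK c) - π / KK c * e) * ε = π * (ε + ε * (c.1 - e) / KK c) := by
        field_simp
        ring
      rw [h3]
      refine mul_le_mul_of_nonneg_left ?_ hπ.le
      show _ ≤ c.1 + KK c - (c.1 - ε + KK (c.1 - ε, c.2))
      linarith) F1.1
  have G2 := lower (R := R) hVc (gh_cont hf) (gh_pos hf) hsc hc hmin hp hps hsq hq hVp hVq hw hin
    (by linarith : 0 < -deriv (Veff f h c.1 c.2) p / 2)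
    (by linarith : 0 < deriv (Veff f h c.1 c.2) q / 2) b1 b2 hc2
    (fun ε => (c.1, c.2 - ε)) (by fun_prop) (by simp)
    (fun ε => veff_sub2 f h c.1 c.2 ε) (A := π * (c.2 / KK c)) (B := π / KK c)
    (by positivity) (by
      intro e he hek
      have h3 : π * (c.2 / KK c) - π / KK c * e = π * ((c.2 - e) / KK c) := by
        field_simp
      rw [h3]
      have : 0 < c.2 - e := by linarith
      positivity) (by
      intro ε e hε he hek hεe
      have h1 := lo2 ε hε (hεe.trans hek)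
      have h2 : ε * (c.2 - e) / KK c ≤ ε * (c.2 - ε / 2) / KK c := by
        have : ε * (c.2 - e) ≤ ε * (c.2 - ε / 2) := by nlinarith
        gcongr
      have h3 : (π * (c.2 / KK c) - π / KK c * e) * ε = π * (ε * (c.2 - e) / KK c) := by
        field_simp
      rw [h3]
      refine mul_le_mul_of_nonneg_left ?_ hπ.le
      show _ ≤ c.1 + KK c - (c.1 + KK (c.1, c.2 - ε))
      linarith) F2.1
  have e1 : (fun r => c.1 / (f r ^ 2 * √(1 - Veff f h c.1 c.2 r))) =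
      fun r => c.1 * (1 / f r ^ 2) / √(1 - Veff f h c.1 c.2 r) := by
    funext r
    rw [div_mul_eq_div_div, mul_one_div]
  have e2 : (fun r => c.2 / (h r ^ 2 * √(1 - Veff f h c.1 c.2 r))) =
      fun r => c.2 * (1 / h r ^ 2) / √(1 - Veff f h c.1 c.2 r) := by
    funext r
    rw [div_mul_eq_div_div, mul_one_div]
  refine ⟨p, q, hp, hps, hsq, hq, hVp, hVq, hw, hin, hdp, hdq, hint, ?_, ?_⟩
  · rw [e1]; exact le_antisymm F1.2 G1
  · rw [e2]; exact le_antisymm F2.2 G2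

end Pool.Agent.Helper74.CP.C
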