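import Pool.Agent.H206R2.Rot2.TE
import Pool.Agent.H206R2.Rot2.TG

/-! General tools: variation of the action with an arbitrary constant, wells of continuous potentials. -/

set_option autoImplicit false

open Real Set MeasureTheory Filter Topology
open scoped ContDiff

namespace Pool.Agent.Helper74.CP

open Pool.Agent.H206R2.Rot2 (Veff well actW)
open Pool.Agent.H206R2.Rot2.TF (abs_F)
open Pool.Agent.H206R2.Rot2.TG (abs_ge)
open Pool.Agent.H206R2.Rot2.TE (exists_last exists_first)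

lemma tendsto_div_pos {l : ℝ} (hl : 0 < l) :
    Tendsto (fun ε : ℝ => ε / l) (𝓝[>] 0) (𝓝[>] 0) := by
  refine tendsto_nhdsWithin_iff.2 ⟨?_, ?_⟩
  · have : Continuous fun ε : ℝ => ε / l := by fun_prop
    have h2 := this.tendsto 0
    rw [zero_div] at h2
    exact tendsto_nhdsWithin_of_tendsto_nhds h2
  · filter_upwards [self_mem_nhdsWithin] with ε hε
    exact div_pos hε hl

/-- `abs_F` with a general constant -/
lemma abs_F_d {L : ℝ} {V G : ℝ → ℝ} (hV : ContinuousOn V (Ioo 0 L)) (hG : ContinuousOn G (Ioo 0 L))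
    (hG0 : ∀ x ∈ Ioo 0 L, 0 < G x) {p q s₀ : ℝ} (hp : 0 < p) (hps : p < s₀) (hsq : s₀ < q)
    (hq : q < L) (hVp : V p = 1) (hVq : V q = 1) (hin : ∀ x ∈ Ioo p q, V x < 1) {k d : ℝ}
    (hk : 0 < k) (hd : 0 < d) {σ : ℝ → ℝ} (hσ : Tendsto σ (𝓝[>] 0) (𝓝 s₀))
    (hmin : ∀ᶠ ε in 𝓝[>] (0 : ℝ), 2 * ∫ r in Ioo p q, √(1 - V r) ≤
      2 * (∫ r in well L (fun r => V r + ((k + ε) ^ 2 - k ^ 2) * G r) (σ ε),
        √(1 - (V r + ((k + ε) ^ 2 - k ^ 2) * G r))) + d * ε) :
    IntegrableOn (fun r => k * G r / √(1 - V r)) (Ioo p q) ∧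
      2 * ∫ r in Ioo p q, k * G r / √(1 - V r) ≤ d := by
  set l := d / π with hl
  have hl0 : 0 < l := div_pos hd Real.pi_pos
  have hld : l * π = d := by rw [hl]; field_simp
  have hG' : ContinuousOn (fun x => G x / l ^ 2) (Ioo 0 L) := hG.div_const _
  have hfun : ∀ ε : ℝ, (fun r => V r + ((k + ε / l) ^ 2 - k ^ 2) * G r) =
      fun r => V r + ((l * k + ε) ^ 2 - (l * k) ^ 2) * (G r / l ^ 2) := by
    intro ε
    funext r
    field_simp
  have h1 := abs_F (L := L) (V := V) (G := fun x => G x / l ^ 2) hV hG'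
    (fun x hx => div_pos (hG0 x hx) (by positivity)) hp hps hsq hq hVp hVq hin (k := l * k)
    (by positivity) (σ := fun ε => σ (ε / l)) (hσ.comp (tendsto_div_pos hl0)) (by
      filter_upwards [(tendsto_div_pos hl0).eventually hmin] with ε hε
      rw [hfun] at hε
      have e1 : d * (ε / l) = π * ε := by rw [← hld]; field_simp
      rw [e1] at hε
      have e2 : ∀ r, V r + ((k + ε / l) ^ 2 - k ^ 2) * G r =
        V r + ((l * k + ε) ^ 2 - (l * k) ^ 2) * (G r / l ^ 2) := fun r => congrFun (hfun ε) r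
      simp only [e2] at hε
      exact hε)
  have e3 : (fun r => l * k * (G r / l ^ 2) / √(1 - V r)) =
      fun r => l⁻¹ * (k * G r / √(1 - V r)) := by
    funext r
    field_simp
  rw [e3] at h1
  obtain ⟨h2, h3⟩ := h1
  refine ⟨?_, ?_⟩
  · have h4 := h2.const_mul l
    refine (integrableOn_congr_fun (fun r _ => ?_) measurableSet_Ioo).1 h4
    show l * (l⁻¹ * (k * G r / √(1 - V r))) = k * G r / √(1 - V r)
    field_simp
  · rw [integral_const_mul] at h3
    have h5 : l * (2 * (l⁻¹ * ∫ r in Ioo p q, k * G r / √(1 - V r))) ≤ l * π :=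
      mul_le_mul_of_nonneg_left h3 hl0.le
    have h6 : l * (2 * (l⁻¹ * ∫ r in Ioo p q, k * G r / √(1 - V r))) =
        2 * ∫ r in Ioo p q, k * G r / √(1 - V r) := by field_simp
    rw [h6, hld] at h5
    exact h5

/-- `abs_ge` with a general constant -/
lemma abs_ge_d {L : ℝ} {V G : ℝ → ℝ} (hV : ContinuousOn V (Ioo 0 L)) (hG : ContinuousOn G (Ioo 0 L))
    (hG0 : ∀ x ∈ Ioo 0 L, 0 < G x) {p q s₀ : ℝ} (hp : 0 < p) (hps : p < s₀) (hsq : s₀ < q)
    (hq : q < L) (hVp : V p = 1) (hVq : V q = 1) (hin : ∀ x ∈ Ioo p q, V x < 1) {a b : ℝ}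
    (ha : 0 < a) (hb : 0 < b) (hpd : ∀ᶠ r in 𝓝[<] p, 1 + a * (p - r) ≤ V r)
    (hqd : ∀ᶠ r in 𝓝[>] q, 1 + b * (r - q) ≤ V r) {k d : ℝ}
    (hk : 0 < k) (hd : 0 < d) {σ : ℝ → ℝ} (hσ : Tendsto σ (𝓝[>] 0) (𝓝 s₀))
    (hmin : ∀ᶠ ε in 𝓝[>] (0 : ℝ), 2 * (∫ r in Ioo p q, √(1 - V r)) + d * ε ≤
      2 * ∫ r in well L (fun r => V r - (k ^ 2 - (k - ε) ^ 2) * G r) (σ ε),
        √(1 - (V r - (k ^ 2 - (k - ε) ^ 2) * G r)))
    (hint : IntegrableOn (fun r => k * G r / √(1 - V r)) (Ioo p q)) :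
    d ≤ 2 * ∫ r in Ioo p q, k * G r / √(1 - V r) := by
  set l := d / π with hl
  have hl0 : 0 < l := div_pos hd Real.pi_pos
  have hld : l * π = d := by rw [hl]; field_simp
  have hG' : ContinuousOn (fun x => G x / l ^ 2) (Ioo 0 L) := hG.div_const _
  have hfun : ∀ ε : ℝ, (fun r => V r - (k ^ 2 - (k - ε / l) ^ 2) * G r) =
      fun r => V r - ((l * k) ^ 2 - (l * k - ε) ^ 2) * (G r / l ^ 2) := by
    intro ε
    funext r
    field_simp
  have e3 : (fun r => l * k * (G r / l ^ 2) / √(1 - V r)) =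
      fun r => l⁻¹ * (k * G r / √(1 - V r)) := by
    funext r
    field_simp
  have h1 := abs_ge (L := L) (V := V) (G := fun x => G x / l ^ 2) hV hG'
    (fun x hx => div_pos (hG0 x hx) (by positivity)) hp hps hsq hq hVp hVq hin ha hb hpd hqd
    (k := l * k)
    (by positivity) (σ := fun ε => σ (ε / l)) (hσ.comp (tendsto_div_pos hl0)) (by
      filter_upwards [(tendsto_div_pos hl0).eventually hmin] with ε hε
      rw [hfun] at hε
      have e1 : d * (ε / l) = π * ε := by rw [← hld]; field_simp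
      rw [e1] at hε
      have e2 : ∀ r, V r - (k ^ 2 - (k - ε / l) ^ 2) * G r =
        V r - ((l * k) ^ 2 - (l * k - ε) ^ 2) * (G r / l ^ 2) := fun r => congrFun (hfun ε) r
      simp only [e2] at hε
      exact hε) (by rw [e3]; exact hint.const_mul _)
  rw [e3, integral_const_mul] at h1
  have h5 : l * π ≤ l * (2 * (l⁻¹ * ∫ r in Ioo p q, k * G r / √(1 - V r))) :=
    mul_le_mul_of_nonneg_left h1 hl0.le
  have h6 : l * (2 * (l⁻¹ * ∫ r in Ioo p q, k * G r / √(1 - V r))) =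
      2 * ∫ r in Ioo p q, k * G r / √(1 - V r) := by field_simp
  rw [h6, hld] at h5
  exact h5

/-- wells of continuous potentials -/
lemma well_abs {L : ℝ} {V : ℝ → ℝ} (hVc : ContinuousOn V (Ioo 0 L)) {s u v : ℝ} (hu0 : 0 < u)
    (hus : u < s) (hsv : s < v) (hvL : v < L) (hu1 : 1 ≤ V u) (hv1 : 1 ≤ V v) (hs : V s < 1) :
    ∃ p q, 0 < p ∧ p < s ∧ s < q ∧ q < L ∧ V p = 1 ∧ V q = 1 ∧
      well L V s = Ioo p q ∧ ∀ x ∈ Ioo p q, V x < 1 := by
  have hs0 : 0 < s := hu0.trans hus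
  have hsL : s < L := hsv.trans hvL
  obtain ⟨p, hup, hps, hp1, hplt⟩ := exists_last hus.le
    (hVc.mono (fun x hx => ⟨lt_of_lt_of_le hu0 hx.1, lt_of_le_of_lt hx.2 hsL⟩)) hu1 hs
  obtain ⟨q, hsq, hqv, hq1, hqlt⟩ := exists_first hsv.le
    (hVc.mono (fun x hx => ⟨lt_of_lt_of_le hs0 hx.1, lt_of_le_of_lt hx.2 hvL⟩)) hs hv1
  have hp0 : 0 < p := lt_of_lt_of_le hu0 hup
  have hqL : q < L := lt_of_le_of_lt hqv hvL
  have hin : ∀ x ∈ Ioo p q, V x < 1 := by
    intro x hx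
    rcases le_total x s with hxs | hxs
    · exact hplt x hx.1 hxs
    · exact hqlt x hxs hx.2
  refine ⟨p, q, hp0, hps, hsq, hqL, hp1, hq1, ?_, hin⟩
  ext r
  constructor
  · intro hr
    have hr' : ∀ x ∈ uIcc s r, 0 < x ∧ x < L ∧ V x < 1 := hr
    constructor
    · by_contra hcon
      push Not at hcon
      have : p ∈ uIcc s r := by
        rw [uIcc_of_ge (by linarith)]; exact ⟨hcon, hps.le⟩
      have := (hr' p this).2.2
      linarith
    · by_contra hcon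
      push Not at hcon
      have : q ∈ uIcc s r := by
        rw [uIcc_of_le (by linarith)]; exact ⟨hsq.le, hcon⟩
      have := (hr' q this).2.2
      linarith
  · intro hr x hx
    have hx' : x ∈ Ioo p q :=
      (ordConnected_Ioo.uIcc_subset ⟨hps, hsq⟩ hr) hx
    exact ⟨hp0.trans hx'.1, hx'.2.trans hqL, hin x hx'⟩

end Pool.Agent.Helper74.CP
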